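import Pool.Agent.KCS.ASM

/-!
# MP_9f6ce3_lc: Kurepa cardinals are characterizable by a complete sentence

There is a complete sentence of `L_{ω₁,ω}` which has a model of cardinality `κ ≥ ℵ₀` if and only if `κ ≤ 2 ^ ℵ₀` or some tree of
height `ω₁` with countable levels has at least `κ` cofinal branches.  So the maximal number `κ ≥ 2 ^ ℵ₀` of cofinal branches of such trees is
characterizable by a complete sentence.  Paper proof and the modules: `Pool/Agent/KCS/St.lean`.
-/

namespace Pool.Agent.Results.MP_9f6ce3_lc.KurepaComplete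

open Pool.Agent.KCS Cardinal

theorem result :
    (∃ (L : FirstOrder.Language.{0, 0}) (ψ : Fm L 0), Countable L.Symbols ∧ Complete ψ ∧
      ∀ κ : Cardinal.{0}, ℵ₀ ≤ κ → (HasModel ψ κ ↔ κ ≤ 2 ^ ℵ₀ ∨ ManyBranches κ)) ∧
    ∀ κ : Cardinal.{0}, 2 ^ ℵ₀ ≤ κ → ManyBranches κ → ¬ ManyBranches (Order.succ κ) → CompletelyCharacterizable κ :=
  asm_fin

end Pool.Agent.Results.MP_9f6ce3_lc.KurepaComplete
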